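import Mathlib
import Pool.Agent.Helper189.OD.Main

universe u

namespace Pool.Agent.Results.MP_75351f_al.DivisibleEmbeddingBoth

/-- Every ordered group `G` (total order invariant under left and right multiplication) which is
both abelian-by-nilpotent (`A` abelian normal, `G ⧸ A` nilpotent) and nilpotent-by-abelian
(`N` nilpotent normal, `G ⧸ N` abelian) admits an order-embedding into a divisible ordered
group. -/
theorem result (G : Type u) [Group G] [LinearOrder G] [MulLeftMono G] [MulRightMono G]
    (A : Subgroup G) [A.Normal] (hA : ∀ a ∈ A, ∀ b ∈ A, a * b = b * a)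
    (hnil : Group.IsNilpotent (G ⧸ A))
    (N : Subgroup G) [N.Normal] (_hN : Group.IsNilpotent N)
    (_hab : ∀ x y : G ⧸ N, x * y = y * x) :
    ∃ (H : Type u) (_ : Group H) (_ : LinearOrder H) (_ : MulLeftMono H) (_ : MulRightMono H)
      (φ : G →* H), Function.Injective φ ∧ (∀ a b : G, a ≤ b ↔ φ a ≤ φ b) ∧
      ∀ (h : H) (n : ℕ), 1 ≤ n → ∃ x : H, x ^ n = h :=
  OD.main A inferInstance hA hnil

end Pool.Agent.Results.MP_75351f_al.DivisibleEmbeddingBoth
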